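import Pool.Agent.W8.LS.Stm

open scoped Topology ContDiff
open Complex (I)
open Pool.Agent.W8.LS

namespace Pool.Agent.W115.LS

theorem sing_iff (P : V) : sing P ↔
    (-2 * P.2.2.1.re ∈ Set.range ((↑) : ℤ → ℝ)) ∧ (-2 * P.2.2.1.im ∈ Set.range ((↑) : ℤ → ℝ)) ∧
    (-2 * P.2.2.2.re ∈ Set.range ((↑) : ℤ → ℝ)) ∧
    (P.2.2.2.im + 2 * P.2.2.1.re * P.2.1 + √2 * P.2.2.2.re ∈ Set.range ((↑) : ℤ → ℝ)) := by
  obtain ⟨t, c, z, w⟩ := P
  constructor
  · rintro ⟨k, l, m, r, s, c', h⟩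
    simp only [site, Prod.mk.injEq] at h
    obtain ⟨h1, h2, h3, h4⟩ := h
    subst h2
    subst h3
    subst h4
    refine ⟨⟨k, ?_⟩, ⟨l, ?_⟩, ⟨m, ?_⟩, ⟨r, ?_⟩⟩
    · simp
      ring
    · simp
      ring
    · simp
      ring
    · simp
      ring
  · rintro ⟨⟨k, hk⟩, ⟨l, hl⟩, ⟨m, hm⟩, ⟨r, hr⟩⟩
    simp only at hk hl hm hr
    refine ⟨k, l, m, r, t, c, ?_⟩
    have e1 : z.re = -(k : ℝ) / 2 := by linarith
    have e2 : z.im = -(l : ℝ) / 2 := by linarith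
    have e3 : w.re = -(m : ℝ) / 2 := by linarith
    have e4 : w.im = r + k * c + √2 * m / 2 := by
      rw [e1, e3] at hr
      linarith
    simp only [site, Prod.mk.injEq]
    refine ⟨by simp, trivial, ?_, ?_⟩
    · apply Complex.ext
      · simp [e1]
        ring
      · simp [e2]
        ring
    · apply Complex.ext
      · simp [e3]
        ring
      · simp [e4]
        ring

theorem SingClosed_proof : SingClosed := by
  have hZ : IsClosed (Set.range ((↑) : ℤ → ℝ)) := Int.isClosedEmbedding_coe_real.isClosed_range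
  have key : {P : V | sing P} =
      (fun P : V => -2 * P.2.2.1.re) ⁻¹' (Set.range ((↑) : ℤ → ℝ)) ∩
      ((fun P : V => -2 * P.2.2.1.im) ⁻¹' (Set.range ((↑) : ℤ → ℝ)) ∩
      ((fun P : V => -2 * P.2.2.2.re) ⁻¹' (Set.range ((↑) : ℤ → ℝ)) ∩
      (fun P : V => P.2.2.2.im + 2 * P.2.2.1.re * P.2.1 + √2 * P.2.2.2.re) ⁻¹'
        (Set.range ((↑) : ℤ → ℝ)))) := by
    ext P
    exact sing_iff P
  unfold SingClosed
  rw [key]
  refine IsClosed.inter (hZ.preimage ?_) (IsClosed.inter (hZ.preimage ?_)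
    (IsClosed.inter (hZ.preimage ?_) (hZ.preimage ?_)))
  · fun_prop
  · fun_prop
  · fun_prop
  · fun_prop

end Pool.Agent.W115.LS
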